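import Pool.Agent.N356.SP.Defs

/-!
# Project LS (helper356), tasks LS3b and LS6
-/

set_option autoImplicit false

namespace Pool.Agent.N615.LS

open Finset Pool.Agent.H384R3.SPk Pool.Agent.N356.SP

variable {Γ : Type*} [AddCommGroup Γ]

/-- LS3b -/
theorem Wpaired {C : Finset Γ} {θ : Γ → Γ → ℝ} (h : GoodC C θ) (K : Γ → Γ → ℝ)
    (K0 : ∀ s t, 0 ≤ K s t) (Kn : ∀ s t, K s (-t) = K s t) :
    2 * ∑ s ∈ C, ∑ t ∈ C, θ s t ^ 2 * K s t ≤
      45 / 16 * ((∑ s ∈ C, ∑ t ∈ C, K s t) - 2 * ∑ s ∈ C, K s s) := by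
  classical
  rw [Finset.mul_sum, Finset.mul_sum (s := C) (f := fun s => K s s), ← Finset.sum_sub_distrib,
    Finset.mul_sum]
  refine Finset.sum_le_sum fun s hs => ?_
  have hre : ∑ t ∈ C, θ s t ^ 2 * K s t = ∑ t ∈ C, θ s (-t) ^ 2 * K s t := by
    refine Finset.sum_nbij' (fun t => -t) (fun t => -t) (fun t ht => h.neg t ht)
      (fun t ht => h.neg t ht) (fun t _ => neg_neg t) (fun t _ => neg_neg t) fun t _ => ?_
    rw [neg_neg, Kn]
  have h2 : 2 * ∑ t ∈ C, θ s t ^ 2 * K s t = ∑ t ∈ C, (θ s t ^ 2 + θ s (-t) ^ 2) * K s t := by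
    rw [two_mul]
    nth_rewrite 2 [hre]
    rw [← Finset.sum_add_distrib]
    exact Finset.sum_congr rfl fun t _ => by ring
  rw [h2]
  have hsub : ({s, -s} : Finset Γ) ⊆ C := by
    intro t ht
    rw [Finset.mem_insert, Finset.mem_singleton] at ht
    rcases ht with rfl | rfl
    · exact hs
    · exact h.neg s hs
  have h3 : ∑ t ∈ ({s, -s} : Finset Γ),
      (45 / 16 * K s t - (θ s t ^ 2 + θ s (-t) ^ 2) * K s t) ≤
      ∑ t ∈ C, (45 / 16 * K s t - (θ s t ^ 2 + θ s (-t) ^ 2) * K s t) := by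
    refine Finset.sum_le_sum_of_subset_of_nonneg hsub fun t ht hn => ?_
    rw [Finset.mem_insert, Finset.mem_singleton, not_or] at hn
    have h4 := h.sq s hs t ht hn.1 hn.2
    have h5 := K0 s t
    nlinarith
  rw [Finset.sum_pair (h.ne s hs), neg_neg, h.self, h.anti, Kn, Finset.sum_sub_distrib,
    ← Finset.mul_sum] at h3
  linarith

/-- LS6 -/
theorem good_small [DecidableEq Γ] {c : Γ} (h8 : ∀ k : ℕ, 0 < k → k ≤ 8 → k • c ≠ 0) :
    GoodC ({c, -c} : Finset Γ) (fun _ _ => (0:ℝ)) := by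
  have h1 : c ≠ 0 := by
    have h := h8 1 (by norm_num) (by norm_num)
    rwa [one_nsmul] at h
  have h2 : c + c ≠ 0 := by
    have h := h8 2 (by norm_num) (by norm_num)
    rwa [two_nsmul] at h
  have h3 : c + c + c ≠ 0 := by
    intro h
    apply h8 3 (by norm_num) (by norm_num)
    rw [← h]
    abel
  have h4 : c + c + (c + c) ≠ 0 := by
    intro h
    apply h8 4 (by norm_num) (by norm_num)
    rw [← h]
    abel
  have hmem : ∀ s : Γ, s ∈ ({c, -c} : Finset Γ) ↔ s = c ∨ s = -c := by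
    intro s
    rw [Finset.mem_insert, Finset.mem_singleton]
  have hcc : c ≠ -c := fun h => h2 (by nth_rewrite 2 [h]; exact add_neg_cancel c)
  refine ⟨?_, ?_, ?_, ?_, ?_, ?_, ?_, ?_, ?_, ?_, ?_⟩
  · intro s hs
    rw [hmem] at hs ⊢
    rcases hs with rfl | rfl
    · exact Or.inr rfl
    · exact Or.inl (neg_neg _)
  · intro s hs
    rw [hmem] at hs
    rcases hs with rfl | rfl
    · exact hcc
    · rw [neg_neg]
      exact hcc.symm
  · intro s t
    exact le_refl _
  · intro s t
    rfl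
  · intro s t
    rfl
  · intro s
    rfl
  · intro s
    rfl
  · intro r hr s hs t ht hrst
    exfalso
    rw [hmem] at hr hs ht
    rcases hr with rfl | rfl <;> rcases hs with rfl | rfl <;> rcases ht with rfl | rfl
    · exact h3 hrst
    · apply h1
      rw [← hrst]
      abel
    · apply h1
      rw [← hrst]
      abel
    · apply h1
      rw [← neg_eq_zero, ← hrst]
      abel
    · apply h1
      rw [← hrst]
      abel
    · apply h1
      rw [← neg_eq_zero, ← hrst]
      abel
    · apply h1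
      rw [← neg_eq_zero, ← hrst]
      abel
    · apply h3
      rw [← neg_eq_zero, ← hrst]
      abel
  · intro s _ t _ _ _
    norm_num
  · intro s _ t _ u _ v _ _ _ _ _ _ _ _
    norm_num
  · intro s hs t ht hst
    rw [hmem] at hs ht
    rcases hs with rfl | rfl <;> rcases ht with rfl | rfl
    · exfalso
      apply h4
      nth_rewrite 2 [hst]
      exact add_neg_cancel _
    · exact add_neg_cancel _
    · exact neg_add_cancel _
    · exfalso
      apply h4
      have h5 : c + c + (c + c) = -((-c + -c) + (-c + -c)) := by abel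
      rw [h5]
      nth_rewrite 2 [hst]
      rw [add_neg_cancel, neg_zero]

end Pool.Agent.N615.LS
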