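import Pool.Agent.N615.LS.Mc3
import Pool.Agent.N342.LS.JSpec
import Pool.Agent.N954.LS.A2
import Pool.Agent.N887.LS.A3

/-!
# Project LS (helper356), tasks LS8d and LS9 (the latter from the combinatorial inequality LS4)
-/

set_option autoImplicit false

namespace Pool.Agent.N615.LS

open Finset Pool.Agent.H384R3.SPk Pool.Agent.N356.SP

theorem jspec : JSpec := fun m g f hg0 hf0 hg i U => Pool.Agent.N342.LS.J_spec m g f hg0 hf0 hg i U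

variable {m : ℕ} {C : Finset (ZMod m)} {θ : ZMod m → ZMod m → ℝ} {g f : ℤ →₀ ℝ}

/-- LS8d -/
theorem A1_eq (hneg : ∀ s ∈ C, -s ∈ C) (hne : ∀ s ∈ C, s ≠ -s)
    (hg0 : ∀ n, 0 ≤ g n) (hf0 : ∀ n, 0 ≤ f n)
    (hg : ∀ n ∈ g.support, ((n : ℤ) : ZMod m) = 0)
    (hf : ∀ n ∈ f.support, ((n : ℤ) : ZMod m) ∈ C) (i : ℕ) : AJ i 1 g f = 0 :=
  A1_eq' jspec hneg hne hg0 hf0 hg hf i

/-- the statement of LS4 for one set of classes -/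
def Comb {Γ : Type*} [AddCommGroup Γ] (C : Finset Γ) (θ : Γ → Γ → ℝ) : Prop :=
  ∀ (I : Multiset Γ → ℝ), (∀ U, 0 ≤ I U) → (∀ U : Multiset Γ, U.sum ≠ 0 → I U = 0) →
    5 / 2 * (∑ x ∈ C, ∑ y ∈ C, ∑ z ∈ C, I {x, -x, y, -y, z, -z}) +
      8 / 3 * (∑ r ∈ C, ∑ s ∈ C, ∑ t ∈ C, ∑ u ∈ C, ∑ v ∈ C,
        θ s t * θ u v * I {r, -r, s, t, u, v}) ≤
    ∑ a ∈ C, ∑ b ∈ C, ∑ c ∈ C, ∑ d ∈ C, ∑ x ∈ C, ∑ y ∈ C, I {a, b, c, d, x, y}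

/-- LS9, from LS4 -/
theorem star3' (hcomb : Comb C θ) (h : GoodC C θ) (hg0 : ∀ n, 0 ≤ g n) (hf0 : ∀ n, 0 ≤ f n)
    (hg : ∀ n ∈ g.support, ((n : ℤ) : ZMod m) = 0)
    (hf : ∀ n ∈ f.support, ((n : ℤ) : ZMod m) ∈ C) {G : ℝ} (hG : Mc 3 g ≤ G) :
    0 ≤ AJ 4 2 g f ∧
      5 / 2 * AJ 4 2 g f ^ 3 + 8 / 3 * G * AJ 3 3 g f ^ 2 ≤ G ^ 2 * Mc 3 f :=
  star3_of h (fun U => (Ic_of jspec hf0 U).1)
    (hcomb (Ic m f) (fun U => (Ic_of jspec hf0 U).1) (fun U hU => (Ic_of jspec hf0 U).2 hU))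
    (Mc3_eq h.neg hf0 hf)
    (Pool.Agent.N954.LS.A2_le jspec h.neg h.ne hg0 hf0 hg hf)
    (Pool.Agent.N887.LS.A3_le_of jspec h hg0 hf0 hg hf) hG

end Pool.Agent.N615.LS
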