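import Pool.Agent.N356.SP.Defs

/-!
# Project LS (helper356), tasks LS8a, LS8d and LS9, with the earlier statements as hypotheses
-/

set_option autoImplicit false

namespace Pool.Agent.N615.LS

open Finset Pool.Agent.H384R3.SPk Pool.Agent.N356.SP

/-- the statement of LS7a, continuity of `cosp` -/
def CospCont : Prop := ∀ (h : ℤ →₀ ℝ), Continuous (cosp h)

/-- the statement of LS7a, continuity of `cl` -/
def ClCont : Prop := ∀ (m : ℕ) (f : ℤ →₀ ℝ) (c : ZMod m), Continuous (cl m f c)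

/-- the statement of LS7a, the decomposition into classes -/
def CospEq : Prop := ∀ (m : ℕ) (f : ℤ →₀ ℝ) (C : Finset (ZMod m)), (∀ s ∈ C, -s ∈ C) →
    (∀ n ∈ f.support, ((n : ℤ) : ZMod m) ∈ C) → ∀ x : ℝ,
    (cosp f x : ℂ) = ∑ c ∈ C, cl m f c x

/-- the statement of LS7b -/
def JSpec : Prop := ∀ (m : ℕ) (g f : ℤ →₀ ℝ), (∀ n, 0 ≤ g n) → (∀ n, 0 ≤ f n) →
    (∀ n ∈ g.support, ((n : ℤ) : ZMod m) = 0) → ∀ (i : ℕ) (U : Multiset (ZMod m)),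
    ∃ r : ℝ, 0 ≤ r ∧ (U.sum ≠ 0 → r = 0) ∧
      (∫ x in (0:ℝ)..1, ((cosp g x : ℝ) : ℂ) ^ i * (U.map fun c => cl m f c x).prod) = (r : ℂ)

lemma int_sum {ι : Type} (C : Finset ι) (F : ι → ℝ → ℂ) (hF : ∀ i, Continuous (F i)) :
    ∫ x in (0:ℝ)..1, ∑ i ∈ C, F i x = ∑ i ∈ C, ∫ x in (0:ℝ)..1, F i x :=
  intervalIntegral.integral_finsetSum fun i _ => (hF i).intervalIntegrable _ _

lemma sum_pow6 {ι : Type} (C : Finset ι) (F : ι → ℂ) :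
    (∑ a ∈ C, F a) ^ 6 = ∑ a ∈ C, ∑ b ∈ C, ∑ c ∈ C, ∑ d ∈ C, ∑ x ∈ C, ∑ y ∈ C,
      F a * (F b * (F c * (F d * (F x * F y)))) := by
  simp only [← Finset.mul_sum, ← Finset.sum_mul]
  ring

lemma ic_eq (m : ℕ) (f : ℤ →₀ ℝ) (a b c d x y : ZMod m) :
    Ic m f {a, b, c, d, x, y} = (∫ t in (0:ℝ)..1, cl m f a t * (cl m f b t * (cl m f c t *
      (cl m f d t * (cl m f x t * cl m f y t))))).re := by
  unfold Ic
  simp only [Multiset.insert_eq_cons, Multiset.map_cons, Multiset.prod_cons,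
    Multiset.map_singleton, Multiset.prod_singleton]

section
variable {m : ℕ} {C : Finset (ZMod m)} {θ : ZMod m → ZMod m → ℝ} {g f : ℤ →₀ ℝ}

/-- LS8a -/
theorem Mc3_of (hcl : ClCont) (hco : CospEq) (hneg : ∀ s ∈ C, -s ∈ C)
    (hf : ∀ n ∈ f.support, ((n : ℤ) : ZMod m) ∈ C) :
    Mc 3 f = ∑ a ∈ C, ∑ b ∈ C, ∑ c ∈ C, ∑ d ∈ C, ∑ x ∈ C, ∑ y ∈ C, Ic m f {a, b, c, d, x, y} := by
  have hc : ∀ c : ZMod m, Continuous (cl m f c) := fun c => hcl m f c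
  have h1 : ((Mc 3 f : ℝ) : ℂ) = ∑ a ∈ C, ∑ b ∈ C, ∑ c ∈ C, ∑ d ∈ C, ∑ x ∈ C, ∑ y ∈ C,
      ∫ t in (0:ℝ)..1, cl m f a t * (cl m f b t * (cl m f c t *
      (cl m f d t * (cl m f x t * cl m f y t)))) := by
    unfold Mc
    rw [← intervalIntegral.integral_ofReal]
    have e : ∀ t : ℝ, ((cosp f t ^ (2 * 3) : ℝ) : ℂ) = ∑ a ∈ C, ∑ b ∈ C, ∑ c ∈ C, ∑ d ∈ C,
        ∑ x ∈ C, ∑ y ∈ C, cl m f a t * (cl m f b t * (cl m f c t *
      (cl m f d t * (cl m f x t * cl m f y t)))) := by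
      intro t
      rw [Complex.ofReal_pow, hco m f C hneg hf t, ← sum_pow6 C (fun c => cl m f c t)]
    rw [intervalIntegral.integral_congr (fun t _ => e t)]
    rw [int_sum C _ (by intro a; fun_prop)]
    refine Finset.sum_congr rfl fun a _ => ?_
    rw [int_sum C _ (by intro b; fun_prop)]
    refine Finset.sum_congr rfl fun b _ => ?_
    rw [int_sum C _ (by intro c; fun_prop)]
    refine Finset.sum_congr rfl fun c _ => ?_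
    rw [int_sum C _ (by intro d; fun_prop)]
    refine Finset.sum_congr rfl fun d _ => ?_
    rw [int_sum C _ (by intro x; fun_prop)]
    refine Finset.sum_congr rfl fun x _ => ?_
    rw [int_sum C _ (by intro y; fun_prop)]
  have h2 := congrArg Complex.re h1
  rw [Complex.ofReal_re] at h2
  rw [h2]
  simp only [Complex.re_sum, ic_eq]

/-- LS8d -/
theorem A1_of (hgc : CospCont) (hcl : ClCont) (hco : CospEq) (hJ : JSpec)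
    (hneg : ∀ s ∈ C, -s ∈ C) (hne : ∀ s ∈ C, s ≠ -s)
    (hg0 : ∀ n, 0 ≤ g n) (hf0 : ∀ n, 0 ≤ f n)
    (hg : ∀ n ∈ g.support, ((n : ℤ) : ZMod m) = 0)
    (hf : ∀ n ∈ f.support, ((n : ℤ) : ZMod m) ∈ C) (i : ℕ) : AJ i 1 g f = 0 := by
  have hc : ∀ c : ZMod m, Continuous (cl m f c) := fun c => hcl m f c
  have hgc' : Continuous (cosp g) := hgc g
  have h1 : ((AJ i 1 g f : ℝ) : ℂ) = 0 := by
    unfold AJ
    rw [← intervalIntegral.integral_ofReal]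
    have e : ∀ t : ℝ, ((cosp g t ^ i * cosp f t ^ 1 : ℝ) : ℂ) =
        ∑ c ∈ C, ((cosp g t : ℝ) : ℂ) ^ i * cl m f c t := by
      intro t
      rw [Complex.ofReal_mul, Complex.ofReal_pow, Complex.ofReal_pow, pow_one,
        hco m f C hneg hf t, Finset.mul_sum]
    rw [intervalIntegral.integral_congr (fun t _ => e t)]
    rw [int_sum C _ (by intro c; fun_prop)]
    refine Finset.sum_eq_zero fun c hc0 => ?_
    obtain ⟨r, hr0, hr1, hr2⟩ := hJ m g f hg0 hf0 hg i {c}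
    simp only [Multiset.map_singleton, Multiset.prod_singleton] at hr2
    rw [hr2, hr1, Complex.ofReal_zero]
    rw [Multiset.sum_singleton]
    intro h0
    apply hne c hc0
    rw [h0, neg_zero]
  exact_mod_cast h1

/-- positivity of the functional -/
theorem Ic_of (hJ : JSpec) (hf0 : ∀ n, 0 ≤ f n) (U : Multiset (ZMod m)) :
    0 ≤ Ic m f U ∧ (U.sum ≠ 0 → Ic m f U = 0) := by
  obtain ⟨r, hr0, hr1, hr2⟩ := hJ m 0 f (fun n => le_refl _) hf0 (by simp) 0 U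
  have h1 : Ic m f U = r := by
    unfold Ic
    simp only [pow_zero, one_mul] at hr2
    rw [hr2, Complex.ofReal_re]
  rw [h1]
  exact ⟨hr0, hr1⟩

theorem Mc_nonneg (k : ℕ) (h : ℤ →₀ ℝ) : 0 ≤ Mc k h := by
  unfold Mc
  refine intervalIntegral.integral_nonneg (by norm_num) fun t _ => ?_
  rw [pow_mul]
  positivity

/-- LS9 -/
theorem star3_of (h : GoodC C θ) (hI0 : ∀ U, 0 ≤ Ic m f U)
    (hcomb : 5 / 2 * (∑ x ∈ C, ∑ y ∈ C, ∑ z ∈ C, Ic m f {x, -x, y, -y, z, -z}) +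
      8 / 3 * (∑ r ∈ C, ∑ s ∈ C, ∑ t ∈ C, ∑ u ∈ C, ∑ v ∈ C,
        θ s t * θ u v * Ic m f {r, -r, s, t, u, v}) ≤
      ∑ a ∈ C, ∑ b ∈ C, ∑ c ∈ C, ∑ d ∈ C, ∑ x ∈ C, ∑ y ∈ C, Ic m f {a, b, c, d, x, y})
    (hM : Mc 3 f = ∑ a ∈ C, ∑ b ∈ C, ∑ c ∈ C, ∑ d ∈ C, ∑ x ∈ C, ∑ y ∈ C,
      Ic m f {a, b, c, d, x, y})
    (hA2 : 0 ≤ AJ 4 2 g f ∧ AJ 4 2 g f ^ 3 ≤
      Mc 3 g ^ 2 * ∑ x ∈ C, ∑ y ∈ C, ∑ z ∈ C, Ic m f {x, -x, y, -y, z, -z})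
    (hA3 : AJ 3 3 g f ^ 2 ≤ Mc 3 g * ∑ r ∈ C, ∑ s ∈ C, ∑ t ∈ C, ∑ u ∈ C, ∑ v ∈ C,
      θ s t * θ u v * Ic m f {r, -r, s, t, u, v})
    {G : ℝ} (hG : Mc 3 g ≤ G) :
    0 ≤ AJ 4 2 g f ∧
      5 / 2 * AJ 4 2 g f ^ 3 + 8 / 3 * G * AJ 3 3 g f ^ 2 ≤ G ^ 2 * Mc 3 f := by
  refine ⟨hA2.1, ?_⟩
  rw [← hM] at hcomb
  have hP0 : 0 ≤ ∑ x ∈ C, ∑ y ∈ C, ∑ z ∈ C, Ic m f {x, -x, y, -y, z, -z} :=
    Finset.sum_nonneg fun x _ => Finset.sum_nonneg fun y _ => Finset.sum_nonneg fun z _ => hI0 _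
  have hW0 : 0 ≤ ∑ r ∈ C, ∑ s ∈ C, ∑ t ∈ C, ∑ u ∈ C, ∑ v ∈ C,
      θ s t * θ u v * Ic m f {r, -r, s, t, u, v} :=
    Finset.sum_nonneg fun r _ => Finset.sum_nonneg fun s _ => Finset.sum_nonneg fun t _ =>
      Finset.sum_nonneg fun u _ => Finset.sum_nonneg fun v _ =>
        mul_nonneg (mul_nonneg (h.nn s t) (h.nn u v)) (hI0 _)
  generalize (∑ x ∈ C, ∑ y ∈ C, ∑ z ∈ C, Ic m f {x, -x, y, -y, z, -z}) = P at *
  generalize (∑ r ∈ C, ∑ s ∈ C, ∑ t ∈ C, ∑ u ∈ C, ∑ v ∈ C,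
      θ s t * θ u v * Ic m f {r, -r, s, t, u, v}) = W at *
  have hg0 := Mc_nonneg 3 g
  have hG0 : 0 ≤ G := hg0.trans hG
  have h1 : AJ 4 2 g f ^ 3 ≤ G ^ 2 * P := by
    refine hA2.2.trans ?_
    have h2 : Mc 3 g ^ 2 ≤ G ^ 2 := by gcongr
    exact mul_le_mul_of_nonneg_right h2 hP0
  have h2 : AJ 3 3 g f ^ 2 ≤ G * W := hA3.trans (mul_le_mul_of_nonneg_right hG hW0)
  have h3 : G * AJ 3 3 g f ^ 2 ≤ G * (G * W) := mul_le_mul_of_nonneg_left h2 hG0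
  have h4 : G ^ 2 * (5 / 2 * P + 8 / 3 * W) ≤ G ^ 2 * Mc 3 f :=
    mul_le_mul_of_nonneg_left hcomb (by positivity)
  nlinarith

end

end Pool.Agent.N615.LS
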