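import Pool.Agent.N645.LS.L7a
import Pool.Agent.N615.LS.Mom

/-!
# Project LS (helper356), tasks LS8a and LS8d
-/

set_option autoImplicit false

namespace Pool.Agent.N615.LS

open Finset Pool.Agent.H384R3.SPk Pool.Agent.N356.SP

variable {m : ℕ} {C : Finset (ZMod m)} {θ : ZMod m → ZMod m → ℝ} {g f : ℤ →₀ ℝ}

/-- LS8a -/
theorem Mc3_eq (hneg : ∀ s ∈ C, -s ∈ C) (hf0 : ∀ n, 0 ≤ f n)
    (hf : ∀ n ∈ f.support, ((n : ℤ) : ZMod m) ∈ C) :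
    Mc 3 f = ∑ a ∈ C, ∑ b ∈ C, ∑ c ∈ C, ∑ d ∈ C, ∑ x ∈ C, ∑ y ∈ C, Ic m f {a, b, c, d, x, y} :=
  Mc3_of (fun m f c => Pool.Agent.N645.LS.cl_cont m f c)
    (fun m f C hneg hf x => Pool.Agent.N645.LS.cosp_eq m f C hneg hf x) hneg hf

/-- LS8d, from the statement of LS7b -/
theorem A1_eq' (hJ : JSpec) (hneg : ∀ s ∈ C, -s ∈ C) (hne : ∀ s ∈ C, s ≠ -s)
    (hg0 : ∀ n, 0 ≤ g n) (hf0 : ∀ n, 0 ≤ f n)
    (hg : ∀ n ∈ g.support, ((n : ℤ) : ZMod m) = 0)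
    (hf : ∀ n ∈ f.support, ((n : ℤ) : ZMod m) ∈ C) (i : ℕ) : AJ i 1 g f = 0 :=
  A1_of (fun h => Pool.Agent.N645.LS.cosp_cont h) (fun m f c => Pool.Agent.N645.LS.cl_cont m f c)
    (fun m f C hneg hf x => Pool.Agent.N645.LS.cosp_eq m f C hneg hf x) hJ hneg hne hg0 hf0 hg hf i

end Pool.Agent.N615.LS
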