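import Pool.Agent.N615.LS.Star3
import Pool.Agent.N80.LS.Comb

/-!
# Project LS (helper356), task LS9: the sharp class inequality
-/

set_option autoImplicit false

namespace Pool.Agent.N615.LS

open Finset Pool.Agent.H384R3.SPk Pool.Agent.N356.SP

variable {m : ℕ} {C : Finset (ZMod m)} {θ : ZMod m → ZMod m → ℝ} {g f : ℤ →₀ ℝ}

/-- LS9: the sharp class inequality -/
theorem star3 (h : GoodC C θ) (hg0 : ∀ n, 0 ≤ g n) (hf0 : ∀ n, 0 ≤ f n)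
    (hg : ∀ n ∈ g.support, ((n : ℤ) : ZMod m) = 0)
    (hf : ∀ n ∈ f.support, ((n : ℤ) : ZMod m) ∈ C) {G : ℝ} (hG : Mc 3 g ≤ G) :
    0 ≤ AJ 4 2 g f ∧
      5 / 2 * AJ 4 2 g f ^ 3 + 8 / 3 * G * AJ 3 3 g f ^ 2 ≤ G ^ 2 * Mc 3 f :=
  star3' (fun I I0 Iz => Pool.Agent.N80.LS.comb h I I0 Iz) h hg0 hf0 hg hf hG

end Pool.Agent.N615.LS
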